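import Pool.Agent.H85.PS.Targets

/-!
# VAN: vanishing at zero
-/

set_option autoImplicit false

open Polynomial Finset Pool.Agent.H85.PS

namespace Pool.Agent.H94.PSV

theorem pf_VAN (h1 : T_TAR) : T_VAN := by
  intro s D T b A hX j hj
  have h2 := h1 s D b 0 A (fun k => by simp)
  have h3 : Tay (((0 : ℚ)) : ℂ) (RR b D A) = PowerSeries.map (algebraMap ℚ ℂ) (evf b D A) := by
    rw [h2]
    unfold evf
    rw [map_sum]
    refine Finset.sum_congr rfl fun e _ => ?_
    rw [map_mul, map_prod, taylor_zero]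
    congr 1
    refine Finset.prod_congr rfl fun k _ => ?_
    rw [map_pow]
    congr 1
    unfold lam
    simp
  have h4 : PowerSeries.coeff j (Tay (((0 : ℚ)) : ℂ) (RR b D A)) = 0 := by
    rw [h3, PowerSeries.coeff_map, PowerSeries.X_pow_dvd_iff.1 hX j hj, map_zero]
  unfold Tay at h4
  rw [PowerSeries.coeff_mk, Rat.cast_zero] at h4
  rcases div_eq_zero_iff.1 h4 with h5 | h5
  · exact h5
  · exact absurd h5 (by exact_mod_cast j.factorial_ne_zero)

end Pool.Agent.H94.PSV
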